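import Mathlib
import Pool.Agent.H2.Beam0

namespace Pool.Agent.Results.MP_0955de_an.NoCycle

open Pool.Agent.H2.Beam0

theorem result (a₁ a₂ : ℝ) (hne : a₁ ≠ a₂) (h₁ : ∀ n : ℤ, a₁ ≠ n) (h₂ : ∀ n : ℤ, a₂ ≠ n) :
    (G a₁ a₂).IsAcyclic := acyclic a₁ a₂ hne h₁ h₂

end Pool.Agent.Results.MP_0955de_an.NoCycle
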